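import Pool.Agent.Lib_helper2.EFD.Defs

set_option autoImplicit false

namespace Pool.Agent.EFD
open Pool.Agent.PTm Pool.Agent.EFX3

/-! ### `tryP` -/

theorem cc_try_nil (a : Fin 3) (P acc : Part) : tryP a [] P acc = upd acc P := rfl

theorem cc_try_cons (a : Fin 3) (g : Good) (N : List Good) (P acc : Part) :
    tryP a (g :: N) P acc =
      tryP a N (put P (tmin a 2 P) g) (upd acc (dump P (g :: N))) := rfl

theorem cc_try_acc (a : Fin 3) : ∀ (N : List Good) (P acc : Part), efx acc = true →
    tryP a N P acc = acc
  | [], P, acc, h => by rw [cc_try_nil, upd_of_efx h]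
  | g :: N, P, acc, h => by
    rw [cc_try_cons, upd_of_efx h]
    exact cc_try_acc a N _ acc h

theorem cc_cand_zero (a : Fin 3) (P : Part) (M : List Good) : cand a P M 0 = dump P M := rfl

theorem cc_cand_nil (a : Fin 3) (P : Part) (r : ℕ) : cand a P [] r = P := by
  unfold cand
  rw [List.take_nil, List.drop_nil]
  rfl

theorem cc_cand_cons (a : Fin 3) (P : Part) (g : Good) (M : List Good) (r : ℕ) :
    cand a P (g :: M) (r + 1) = cand a (put P (tmin a 2 P) g) M r := rfl

theorem cc_try_spec (a : Fin 3) : ∀ (N : List Good) (P acc : Part) (r : ℕ),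
    solved (cand a P N r) → efx (tryP a N P acc) = true
  | [], P, acc, r, h => by
    rw [cc_cand_nil] at h
    rw [cc_try_nil]
    exact efx_upd h
  | g :: N, P, acc, r, h => by
    rw [cc_try_cons]
    cases r with
    | zero =>
      rw [cc_cand_zero] at h
      have he : efx (upd acc (dump P (g :: N))) = true := efx_upd h
      rw [cc_try_acc a N _ _ he]
      exact he
    | succ r =>
      rw [cc_cand_cons] at h
      exact cc_try_spec a N _ _ r h

theorem cc_dump_perm : ∀ (N : List Good) (P : Part), (allG (dump P N)).Perm (N ++ allG P)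
  | [], _ => List.Perm.refl _
  | g :: N, P => (cc_dump_perm N (put P 2 g)).trans
      (((allG_put P 2 g).append_left N).trans List.perm_middle)

theorem cc_try_perm (a : Fin 3) {L : List Good} : ∀ (N : List Good) (P acc : Part),
    (allG acc).Perm L → (N ++ allG P).Perm L → (allG (tryP a N P acc)).Perm L
  | [], P, acc, h1, h2 => by
    rw [cc_try_nil]
    exact allG_upd h1 h2
  | g :: N, P, acc, h1, h2 => by
    rw [cc_try_cons]
    refine cc_try_perm a N _ _ (allG_upd h1 ((cc_dump_perm _ _).trans h2)) ?_
    exact ((allG_put P _ g).append_left N).trans (List.perm_middle.trans h2)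

/-! ### folds over the representatives -/

theorem cc_fold_acc (f : Part → Part → Part) (hf : ∀ acc P, efx acc = true → f acc P = acc) :
    ∀ (R : List Part) (acc : Part), efx acc = true → R.foldl f acc = acc
  | [], _, _ => rfl
  | P :: R, acc, h => by
    rw [List.foldl_cons, hf acc P h]
    exact cc_fold_acc f hf R acc h

theorem cc_fold_spec (f : Part → Part → Part) (hf : ∀ acc P, efx acc = true → f acc P = acc)
    (P : Part) (hP : ∀ acc, efx (f acc P) = true) :
    ∀ (R : List Part) (acc : Part), P ∈ R → efx (R.foldl f acc) = true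
  | [], _, h => by simp at h
  | Q :: R, acc, h => by
    rw [List.foldl_cons]
    rcases List.mem_cons.1 h with h1 | h1
    · subst h1
      rw [cc_fold_acc f hf R _ (hP acc)]
      exact hP acc
    · exact cc_fold_spec f hf P hP R _ h1

theorem cc_fold_perm {L : List Good} (f : Part → Part → Part) :
    ∀ (R : List Part) (acc : Part),
      (∀ P ∈ R, ∀ acc : Part, (allG acc).Perm L → (allG (f acc P)).Perm L) →
      (allG acc).Perm L → (allG (R.foldl f acc)).Perm L
  | [], _, _, h => h
  | P :: R, acc, hR, h => by
    rw [List.foldl_cons]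
    exact cc_fold_perm f R _ (fun Q hQ => hR Q (List.mem_cons_of_mem _ hQ))
      (hR P List.mem_cons_self acc h)

/-! ### the stages -/

/-- the remaining run from the state `(N, R, acc)` -/
def cc_run (a : Fin 3) (K : Fin 3 → List Unit) : List Good → List Part → Part → Part
  | [], R, acc => R.foldl (fun A P => upd A P) acc
  | g :: N, R, acc => cc_run a K N (expand K g R)
      (R.foldl (fun acc P => tryP a (g :: N) P acc) acc)

theorem cc_stages (a : Fin 3) (K : Fin 3 → List Unit) : ∀ (N : List Good) (R : List Part)
    (acc : Part), (N.foldl (fun s (_ : Good) => stage a K s) (N, R, acc)).2.1.foldl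
      (fun A P => upd A P) (N.foldl (fun s (_ : Good) => stage a K s) (N, R, acc)).2.2 =
      cc_run a K N R acc
  | [], _, _ => rfl
  | g :: N, R, acc => by
    rw [List.foldl_cons]
    exact cc_stages a K N (expand K g R) (R.foldl (fun acc P => tryP a (g :: N) P acc) acc)

theorem cc_run_eq (a : Fin 3) (K : Fin 3 → List Unit) (N : List Good) (acc : Part) :
    run a K N acc = cc_run a K N [fun _ => []] acc := by
  unfold run stages
  exact cc_stages a K N _ acc

theorem cc_run_acc (a : Fin 3) (K : Fin 3 → List Unit) : ∀ (N : List Good) (R : List Part)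
    (acc : Part), efx acc = true → cc_run a K N R acc = acc
  | [], R, acc, h => cc_fold_acc _ (fun _ P h => upd_of_efx h) R acc h
  | g :: N, R, acc, h => by
    rw [cc_run, cc_fold_acc _ (fun acc P h => cc_try_acc a (g :: N) P acc h) R acc h]
    exact cc_run_acc a K N _ acc h

theorem run_acc_pr (a : Fin 3) (K : Fin 3 → List Unit) (N : List Good) (acc : Part)
    (h : efx acc = true) : run a K N acc = acc := by
  rw [cc_run_eq]
  exact cc_run_acc a K N _ acc h

theorem cc_mem_addNew {K : Fin 3 → List Unit} {L : List Part} {P Q : Part}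
    (h : Q ∈ addNew K L P) : Q = P ∨ Q ∈ L := by
  unfold addNew at h
  split_ifs at h
  · exact List.mem_cons.1 h
  · exact Or.inr h

theorem cc_mem_fold {K : Fin 3 → List Unit} {g : Good} : ∀ (R : List Part) (M : List Part)
    (Q : Part), Q ∈ R.foldl (fun M P => addNew K (addNew K (addNew K M (put P 0 g)) (put P 1 g))
      (put P 2 g)) M → (∃ P ∈ R, ∃ j, Q = put P j g) ∨ Q ∈ M
  | [], _, _, h => Or.inr h
  | P :: R, M, Q, h => by
    rw [List.foldl_cons] at h
    rcases cc_mem_fold R _ Q h with ⟨P', hP', j, hj⟩ | h1
    · exact Or.inl ⟨P', List.mem_cons_of_mem _ hP', j, hj⟩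
    · rcases cc_mem_addNew h1 with h2 | h2
      · exact Or.inl ⟨P, List.mem_cons_self, 2, h2⟩
      · rcases cc_mem_addNew h2 with h3 | h3
        · exact Or.inl ⟨P, List.mem_cons_self, 1, h3⟩
        · rcases cc_mem_addNew h3 with h4 | h4
          · exact Or.inl ⟨P, List.mem_cons_self, 0, h4⟩
          · exact Or.inr h4

theorem cc_mem_expand {K : Fin 3 → List Unit} {g : Good} {R : List Part} {Q : Part}
    (h : Q ∈ expand K g R) : ∃ P ∈ R, ∃ j, Q = put P j g := by
  rcases cc_mem_fold R [] Q h with h1 | h1
  · exact h1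
  · simp at h1

theorem cc_run_perm (a : Fin 3) (K : Fin 3 → List Unit) {L : List Good} :
    ∀ (N : List Good) (R : List Part) (acc : Part), (allG acc).Perm L →
      (∀ P ∈ R, (N ++ allG P).Perm L) → (allG (cc_run a K N R acc)).Perm L
  | [], R, acc, h, hR => cc_fold_perm _ R acc (fun P hP acc ha => allG_upd ha (hR P hP)) h
  | g :: N, R, acc, h, hR => by
    rw [cc_run]
    refine cc_run_perm a K N _ _ (cc_fold_perm _ R acc (fun P hP acc ha =>
      cc_try_perm a (g :: N) P acc ha (hR P hP)) h) ?_
    intro Q hQ
    obtain ⟨P, hP, j, rfl⟩ := cc_mem_expand hQ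
    exact ((allG_put P j g).append_left N).trans (List.perm_middle.trans (hR P hP))

theorem run_perm_pr (a : Fin 3) (K : Fin 3 → List Unit) (N L : List Good) (acc : Part)
    (hN : N.Perm L) (h : (acc 0 ++ acc 1 ++ acc 2).Perm L) :
    (run a K N acc 0 ++ run a K N acc 1 ++ run a K N acc 2).Perm L := by
  have h1 : (allG (run a K N acc)).Perm L := by
    rw [cc_run_eq]
    refine cc_run_perm a K N _ acc h fun P hP => ?_
    rw [List.mem_singleton] at hP
    subst hP
    simpa [allG] using hN
  exact h1

theorem cc_run_spec (a : Fin 3) (K : Fin 3 → List Unit) (P : Part) (r : ℕ) :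
    ∀ (N : List Good) (R : List Part) (acc : Part) (s : ℕ), s ≤ N.length →
      P ∈ (N.take s).foldl (fun L g => expand K g L) R →
      solved (cand a P (N.drop s) r) → efx (cc_run a K N R acc) = true
  | [], R, acc, s, hs, hP, hsol => by
    rw [List.take_nil] at hP
    rw [List.drop_nil, cc_cand_nil] at hsol
    exact cc_fold_spec (fun A P => upd A P) (fun _ P h => upd_of_efx h) P (fun acc => efx_upd hsol)
      R acc hP
  | g :: N, R, acc, 0, hs, hP, hsol => by
    rw [cc_run]
    have h1 := cc_fold_spec (fun acc P => tryP a (g :: N) P acc)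
      (fun acc P h => cc_try_acc a (g :: N) P acc h) P
      (fun acc => cc_try_spec a (g :: N) P acc r hsol) R acc hP
    rw [cc_run_acc a K N _ _ h1]
    exact h1
  | g :: N, R, acc, s + 1, hs, hP, hsol => by
    rw [cc_run]
    exact cc_run_spec a K P r N _ _ s (Nat.le_of_succ_le_succ hs) hP hsol

/-- if some candidate is solved, the result is EFX -/
theorem run_spec_pr (a : Fin 3) (K : Fin 3 → List Unit) (N : List Good) (acc : Part) (s r : ℕ)
    (hs : s ≤ N.length) (P : Part) (hP : P ∈ reps K (N.take s))
    (hsol : solved (cand a P (N.drop s) r)) : efx (run a K N acc) = true := by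
  rw [cc_run_eq]
  exact cc_run_spec a K P r N _ acc s hs hP hsol

end Pool.Agent.EFD

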